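import Pool.Agent.Lib.MP_75e24b_ag.Final

namespace Pool.Agent.Results.MP_75e24b_ag.NonSquarefreeConductor

open MvPolynomial Pool.Agent.Lib.MP_75e24b_ag

/-- Over every field `K` there is a squarefree monomial ideal `I` (minimally generated by cubics
`x^{e_j}`) of fiber type whose conductor `C(I)` has a minimal monomial generator which is not
squarefree; in particular `C(I)` is not a squarefree monomial ideal. -/
theorem result (K : Type*) [Field K] :
    ∃ (n m : ℕ) (e : Fin m → (Fin n →₀ ℕ)),
      (∀ j i, e j i ≤ 1) ∧ (∀ j, ∑ i, e j i = 3) ∧ (∀ j j', e j ≤ e j' → j = j') ∧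
      IsOfFiberType (fun j => monomial (e j) (1 : K)) ∧
      (∃ u : Fin n →₀ ℕ, (∃ i, 2 ≤ u i) ∧
        monomial u (1 : K) ∈ conductor (fun j => monomial (e j) (1 : K)) ∧
        ∀ v, v < u → monomial v (1 : K) ∉ conductor (fun j => monomial (e j) (1 : K))) ∧
      ¬ IsSquarefreeMonomialIdeal (conductor fun j => monomial (e j) (1 : K)) := by
  have hmin : ∀ v : Fin 7 →₀ ℕ, v ≤ Finsupp.single 5 1 →
      monomial v (1 : K) ∉ conductor (fam K ee) := by
    intro v hv hmem
    apply not_mem_conductor (K := K)
    have h1 : monomial (Finsupp.single 5 1) (1 : K) =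
        monomial (Finsupp.single 5 1 - v) 1 * monomial v 1 := by
      rw [monomial_mul, mul_one, tsub_add_cancel_of_le hv]
    rw [h1]
    exact Ideal.mul_mem_left _ _ hmem
  refine ⟨7, 6, ee, ?_, ?_, ?_, fiberType, ⟨Finsupp.single 5 2, ⟨5, by simp⟩, sq_mem_conductor,
    ?_⟩, ?_⟩
  · intro j i
    fin_cases j <;> fin_cases i <;> simp [ee, ex]
  · intro j
    fin_cases j <;> simp [ee, ex, Fin.sum_univ_seven]
  · intro j j' h
    have h' : ∀ i, ex j i ≤ ex j' i := fun i => h i
    have key : ∀ j j' : Fin 6, (∀ i, ex j i ≤ ex j' i) → j = j' := by decide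
    exact key j j' h'
  · intro v hv
    apply hmin
    intro i
    have h1 := hv.le i
    by_cases hi : i = 5
    · subst hi
      rw [Finsupp.single_eq_same] at h1 ⊢
      by_contra h2
      apply hv.ne
      ext k
      by_cases hk : k = 5
      · subst hk; rw [Finsupp.single_eq_same]; omega
      · have h3 := hv.le k
        rw [Finsupp.single_eq_of_ne hk] at h3 ⊢
        omega
    · rw [Finsupp.single_eq_of_ne hi] at h1
      omega
  · rintro ⟨S, hS, hI⟩
    have h1 := sq_mem_conductor (K := K)
    change monomial (Finsupp.single 5 2) (1 : K) ∈ conductor (fun j => monomial (ee j) (1 : K)) at h1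
    rw [hI, mem_ideal_span_monomial_image] at h1
    obtain ⟨s, hs, hle⟩ := h1 (Finsupp.single 5 2) (by
      rw [mem_support_iff, coeff_monomial, if_pos rfl]; exact one_ne_zero)
    apply hmin s
    · intro i
      by_cases hi : i = 5
      · subst hi; rw [Finsupp.single_eq_same]; exact hS s hs 5
      · have := hle i
        rw [Finsupp.single_eq_of_ne hi] at this
        omega
    · change monomial s (1 : K) ∈ conductor (fun j => monomial (ee j) (1 : K))
      rw [hI]
      exact Ideal.subset_span ⟨s, hs, rfl⟩

end Pool.Agent.Results.MP_75e24b_ag.NonSquarefreeConductor
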